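import Mathlib

namespace Pool.Agent.Results.MP_39cb5d_an.Counter

open Filter Topology BoundedContinuousFunction

noncomputable def G (y : ℝ) : ℝ := y / 4 + 3 / 4 + Real.sin (Real.pi * y / 2) / 10

lemma G_cont : Continuous G := by unfold G; fun_prop

lemma sin_diff (a b : ℝ) : |Real.sin (Real.pi * a / 2) - Real.sin (Real.pi * b / 2)| ≤ 2 * |a - b| := by
  have h := Real.abs_sin_sub_sin_le (Real.pi * a / 2) (Real.pi * b / 2)
  have e : Real.pi * a / 2 - Real.pi * b / 2 = (Real.pi / 2) * (a - b) := by ring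
  rw [e, abs_mul, abs_of_pos (by positivity : (0:ℝ) < Real.pi / 2)] at h
  have := Real.pi_le_four
  nlinarith [abs_nonneg (a - b)]

lemma G_strict : StrictMono G := by
  intro a b hab
  have h := sin_diff a b
  rw [abs_of_neg (by linarith : a - b < 0)] at h
  have := (abs_le.1 h).2
  unfold G; linarith

lemma G_lip (a b : ℝ) : |G a - G b| ≤ 1 / 2 * |a - b| := by
  have h := sin_diff a b
  have e : G a - G b = (a - b) / 4 + (Real.sin (Real.pi * a / 2) - Real.sin (Real.pi * b / 2)) / 10 := by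
    unfold G; ring
  rw [e]
  have h1 := abs_add_le ((a - b) / 4) ((Real.sin (Real.pi * a / 2) - Real.sin (Real.pi * b / 2)) / 10)
  rw [abs_div, abs_div, abs_of_pos (by norm_num : (0:ℝ) < 4), abs_of_pos (by norm_num : (0:ℝ) < 10)] at h1
  have := abs_nonneg (a - b)
  linarith

lemma G_two (y : ℝ) : G y + G (y - 2) = y / 2 + 1 := by
  unfold G
  have : Real.pi * (y - 2) / 2 = Real.pi * y / 2 - Real.pi := by ring
  rw [this, Real.sin_sub_pi]; ring

lemma G_four (y : ℝ) : G (y + 4) = G y + 1 := by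
  have h1 := G_two (y + 4)
  have h2 := G_two (y + 2)
  have e1 : y + 4 - 2 = y + 2 := by ring
  have e2 : y + 2 - 2 = y := by ring
  rw [e1] at h1; rw [e2] at h2
  linarith

noncomputable def T (b : ℝ →ᵇ ℝ) : ℝ →ᵇ ℝ :=
  BoundedContinuousFunction.ofNormedAddCommGroup (fun x => G (4 * x + b (4 * x)) - x)
    (by have := G_cont; have := b.continuous; fun_prop) (‖b‖ + 1) (by
      intro x
      have h1 : |b (4 * x)| ≤ ‖b‖ := b.norm_coe_le_norm _
      have h2 := Real.abs_sin_le_one (Real.pi * (4 * x + b (4 * x)) / 2)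
      have h3 := norm_nonneg b
      rw [Real.norm_eq_abs, abs_le]
      rw [abs_le] at h1 h2
      unfold G
      constructor <;> linarith [h1.1, h1.2, h2.1, h2.2])

lemma T_apply (b : ℝ →ᵇ ℝ) (x : ℝ) : T b x = G (4 * x + b (4 * x)) - x := rfl

lemma T_contr : ContractingWith (1 / 2) T := by
  refine ⟨by norm_num, LipschitzWith.of_dist_le_mul fun b c => ?_⟩
  rw [BoundedContinuousFunction.dist_le (by positivity)]
  intro x
  rw [T_apply, T_apply, Real.dist_eq]
  have h := G_lip (4 * x + b (4 * x)) (4 * x + c (4 * x))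
  have h2 : dist (b (4 * x)) (c (4 * x)) ≤ dist b c := BoundedContinuousFunction.dist_coe_le_dist _
  rw [Real.dist_eq] at h2
  have e : 4 * x + b (4 * x) - (4 * x + c (4 * x)) = b (4 * x) - c (4 * x) := by ring
  rw [e] at h
  have e2 : G (4 * x + b (4 * x)) - x - (G (4 * x + c (4 * x)) - x)
      = G (4 * x + b (4 * x)) - G (4 * x + c (4 * x)) := by ring
  rw [e2]
  push_cast
  linarith

def P (b : ℝ →ᵇ ℝ) : Prop := (∀ x, b (x + 1) = b x) ∧ ∀ x y, x ≤ y → x + b x ≤ y + b y

lemma P_T (b : ℝ →ᵇ ℝ) (h : P b) : P (T b) := by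
  refine ⟨fun x => ?_, fun x y hxy => ?_⟩
  · rw [T_apply, T_apply]
    have e : b (4 * (x + 1)) = b (4 * x) := by
      have e1 : 4 * (x + 1) = 4 * x + 1 + 1 + 1 + 1 := by ring
      rw [e1, h.1, h.1, h.1, h.1]
    have e2 : 4 * (x + 1) + b (4 * x) = 4 * x + b (4 * x) + 4 := by ring
    rw [e, e2, G_four]; ring
  · rw [T_apply, T_apply]
    have := G_strict.monotone (h.2 (4 * x) (4 * y) (by linarith))
    linarith

lemma exists_b : ∃ b : ℝ →ᵇ ℝ, P b ∧ T b = b := by
  refine ⟨T_contr.fixedPoint T, ?_, T_contr.fixedPoint_isFixedPt⟩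
  have ht := T_contr.tendsto_iterate_fixedPoint (0 : ℝ →ᵇ ℝ)
  have hP : ∀ n, P (T^[n] 0) := by
    intro n
    induction n with
    | zero => exact ⟨fun x => rfl, fun x y h => by simpa using h⟩
    | succ n ih => rw [Function.iterate_succ_apply']; exact P_T _ ih
  have hx : ∀ x, Tendsto (fun n => (T^[n] 0) x) atTop (𝓝 (T_contr.fixedPoint T x)) := fun x =>
    ((continuous_eval_const (F := ℝ →ᵇ ℝ) x).tendsto _).comp ht
  refine ⟨fun x => ?_, fun x y hxy => ?_⟩
  · exact tendsto_nhds_unique (hx (x + 1)) ((hx x).congr fun n => ((hP n).1 x).symm)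
  · exact le_of_tendsto_of_tendsto' ((hx x).const_add x) ((hx y).const_add y)
      fun n => (hP n).2 x y hxy

lemma exists_k : ∃ k : ℝ ≃o ℝ, (∀ x, k (x + 1) = k x + 1) ∧ ∀ x, k x = G (k (4 * x)) := by
  obtain ⟨b, ⟨hp, hm⟩, hT⟩ := exists_b
  set k : ℝ → ℝ := fun x => x + b x with hk
  have h1 : ∀ x, k (x + 1) = k x + 1 := fun x => by simp only [hk, hp]; ring
  have h2 : ∀ x, k x = G (k (4 * x)) := fun x => by
    have := T_apply b x
    rw [hT] at this
    simp only [hk]; linarith
  have hmono : Monotone k := fun x y h => hm x y h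
  have hstrict : StrictMono k := by
    intro x y hxy
    refine lt_of_le_of_ne (hmono hxy.le) fun he => ?_
    have hn : ∀ n : ℕ, k (4 ^ n * x) = k (4 ^ n * y) := by
      intro n
      induction n with
      | zero => simpa using he
      | succ n ih =>
        rw [h2 (4 ^ n * x), h2 (4 ^ n * y)] at ih
        have := G_strict.injective ih
        rw [pow_succ', mul_assoc, mul_assoc]; exact this
    obtain ⟨n, hn'⟩ := pow_unbounded_of_one_lt (1 / (y - x)) (by norm_num : (1:ℝ) < 4)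
    rw [div_lt_iff₀ (by linarith)] at hn'
    have := hmono (show 4 ^ n * x + 1 ≤ 4 ^ n * y by nlinarith)
    rw [h1, hn n] at this
    linarith
  have hc : Continuous k := by have := b.continuous; simp only [hk]; fun_prop
  have hsurj : Function.Surjective k := by
    intro y
    have hb : ∀ x, |b x| ≤ ‖b‖ := fun x => b.norm_coe_le_norm x
    have ha := abs_le.1 (hb (y - ‖b‖))
    have hb' := abs_le.1 (hb (y + ‖b‖))
    exact mem_range_of_exists_le_of_exists_ge hc ⟨y - ‖b‖, by simp only [hk]; linarith [ha.2]⟩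
      ⟨y + ‖b‖, by simp only [hk]; linarith [hb'.1]⟩
  exact ⟨hstrict.orderIsoOfSurjective k hsurj, h1, h2⟩

theorem result : ¬ ∀ r : ℕ, 2 ≤ r → ∀ φ : ℝ → ℝ, Continuous φ → Monotone φ →
    (∀ x : ℝ, φ (∑ j ∈ Finset.range r, φ (x - j)) = x) →
    φ = fun x => x / √(r : ℝ) + (√(r : ℝ) - 1) / 2 := by
  intro H
  obtain ⟨k, h1, h2⟩ := exists_k
  set φ : ℝ → ℝ := fun y => k (k.symm y / 2) with hφ
  have hk : ∀ x, φ (k x) = k (x / 2) := fun x => by simp [hφ]
  have hφφ : ∀ y, φ (φ y) = G y := fun y => by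
    obtain ⟨x, rfl⟩ := k.surjective y
    rw [hk x, hk (x / 2), h2 (x / 2 / 2)]
    congr 2; ring
  have hsh : ∀ y, φ y - 1 = φ (y - 2) := fun y => by
    obtain ⟨x, rfl⟩ := k.surjective y
    have e : k x - 2 = k (x - 2) := by
      have a := h1 (x - 2)
      have b := h1 (x - 2 + 1)
      have e1 : x - 2 + 1 + 1 = x := by ring
      rw [e1] at b; linarith
    rw [e, hk, hk]
    have a := h1 ((x - 2) / 2)
    have e1 : (x - 2) / 2 + 1 = x / 2 := by ring
    rw [e1] at a; linarith
  have hc : Continuous φ := k.continuous.comp (k.symm.continuous.div_const 2)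
  have hm : Monotone φ := fun a b hab =>
    k.monotone (by have := k.symm.monotone hab; linarith)
  have heq : ∀ x : ℝ, φ (∑ j ∈ Finset.range 4, φ (x - j)) = x := by
    intro x
    obtain ⟨y, rfl⟩ : ∃ y, φ y = x := ⟨k (2 * k.symm x), by rw [hk]; simp⟩
    congr 1
    simp only [Finset.sum_range_succ, Finset.sum_range_zero]
    push_cast
    have a1 : φ y - 1 = φ (y - 2) := hsh y
    have a2 : φ y - 2 = φ (y - 2 - 2) := by rw [← hsh, ← hsh]; ring
    have a3 : φ y - 3 = φ (y - 2 - 2 - 2) := by rw [← hsh, ← hsh, ← hsh]; ring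
    rw [sub_zero, a1, a2, a3, hφφ, hφφ, hφφ, hφφ]
    have b1 := G_two y
    have b2 := G_two (y - 2 - 2)
    linarith
  have h4 := H 4 (by norm_num) φ hc hm heq
  have hs : √((4 : ℕ) : ℝ) = 2 := by
    rw [show ((4 : ℕ) : ℝ) = 2 ^ 2 by norm_num, Real.sqrt_sq (by norm_num)]
  rw [hs] at h4
  have := hφφ 1
  rw [h4] at this
  simp only [G, mul_one, Real.sin_pi_div_two] at this
  norm_num at this

end Pool.Agent.Results.MP_39cb5d_an.Counter
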